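import Pool.Agent.Lib.MP_af3a4a_an.P1.CHK.DATA.N48x49.K0
import Pool.Agent.Lib.MP_af3a4a_an.P1.CHK.DATA.N48x49.K1
import Pool.Agent.Lib.MP_af3a4a_an.P1.CHK.DATA.N48x49.K2
import Pool.Agent.Lib.MP_af3a4a_an.P1.CHK.DATA.N48x49.K3

/-! glue for 48 <= N <= 49 (generated) -/

set_option autoImplicit false
set_option maxRecDepth 100000

namespace Pool.Agent.Lib.MP_af3a4a_an.P1.CHK.DATA.N48x49

open BOX

theorem g0 : ChunkP 48 49 0 512 64 101 0 2484 := ChunkP.g k1 k2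
theorem g1 : ChunkP 48 49 0 512 0 101 0 2484 := ChunkP.g k0 g0
theorem g2 : ChunkP 48 49 768 1024 80 96 1104 2484 := ChunkP.g k13 k14
theorem g3 : ChunkP 48 49 768 1024 80 96 1056 2484 := ChunkP.R k12 g2
theorem g4 : ChunkP 48 49 768 1024 80 96 1008 2484 := ChunkP.R k11 g3
theorem g5 : ChunkP 48 49 768 1024 80 96 864 2484 := ChunkP.R k10 g4
theorem g6 : ChunkP 48 49 768 1024 80 96 624 2484 := ChunkP.R k9 g5
theorem g7 : ChunkP 48 49 512 1024 80 96 624 2484 := ChunkP.r k8 g6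
theorem g8 : ChunkP 48 49 512 1024 80 96 576 2484 := ChunkP.R k7 g7
theorem g9 : ChunkP 48 49 512 1024 80 96 528 2484 := ChunkP.R k6 g8
theorem g10 : ChunkP 48 49 512 1024 80 96 0 2484 := ChunkP.R k5 g9
theorem g11 : ChunkP 48 49 512 1024 64 96 0 2484 := ChunkP.g k4 g10
theorem g12 : ChunkP 48 49 512 1024 64 101 0 2484 := ChunkP.g g11 k15
theorem g13 : ChunkP 48 49 512 1024 0 101 0 2484 := ChunkP.g k3 g12
theorem g14 : ChunkP 48 49 0 1024 0 101 0 2484 := ChunkP.r g1 g13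
theorem g15 : ChunkP 48 49 1024 1536 64 80 480 2484 := ChunkP.r k19 k20
theorem g16 : ChunkP 48 49 1024 1536 64 80 432 2484 := ChunkP.R k18 g15
theorem g17 : ChunkP 48 49 1024 1536 64 80 0 2484 := ChunkP.R k17 g16
theorem g18 : ChunkP 48 49 1024 1536 80 96 480 2484 := ChunkP.r k23 k24
theorem g19 : ChunkP 48 49 1024 1536 80 96 432 2484 := ChunkP.R k22 g18
theorem g20 : ChunkP 48 49 1024 1536 80 96 0 2484 := ChunkP.R k21 g19
theorem g21 : ChunkP 48 49 1024 1536 64 96 0 2484 := ChunkP.g g17 g20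
theorem g22 : ChunkP 48 49 1024 1536 64 101 0 2484 := ChunkP.g g21 k25
theorem g23 : ChunkP 48 49 1024 1536 0 101 0 2484 := ChunkP.g k16 g22
theorem g24 : ChunkP 48 49 1536 2048 64 96 0 2484 := ChunkP.g k27 k28
theorem g25 : ChunkP 48 49 1536 2048 64 101 0 2484 := ChunkP.g g24 k29
theorem g26 : ChunkP 48 49 1536 2048 0 101 0 2484 := ChunkP.g k26 g25
theorem g27 : ChunkP 48 49 1024 2048 0 101 0 2484 := ChunkP.r g23 g26
theorem g28 : ChunkP 48 49 0 2048 0 101 0 2484 := ChunkP.r g14 g27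
theorem g29 : ChunkP 48 49 2048 3072 0 101 0 2484 := ChunkP.r k30 k31
theorem g30 : ChunkP 48 49 2048 4096 0 101 0 2484 := ChunkP.r g29 k32
theorem g31 : ChunkP 48 49 0 4096 0 101 0 2484 := ChunkP.r g28 g30

/-- the whole box -/
theorem allBox : ChunkP 48 49 0 4096 0 101 0 2484 := g31

theorem full {N : ℕ} (hNa : 48 ≤ N) (hNb : N ≤ 49) {z w : Fin N → ℂ} {R : ℝ} {σ : Fin N → ℂ}
    (hC : Pool.Agent.Lib.MP_af3a4a_an.P1.H80.Cfg2 N z w R σ) : ((2484 : ℕ) : ℝ) / 1024 < R := ChunkP.full allBox hNa hNb hC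

end Pool.Agent.Lib.MP_af3a4a_an.P1.CHK.DATA.N48x49
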